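import Pool.Agent.H840.AS.All
set_option autoImplicit false

/-!
The real regulator on `K_1` of every complex abelian surface has dense image in the `(1, 1)` part
of the second cohomology.
-/

namespace Pool.Agent.Results.MP_b2b689_ag.AbelianSurfaces

open Pool.Agent.H840.AS

open scoped Matrix ComplexOrder

theorem result (Λ : AddSubgroup (Fin 2 → ℂ)) (H : Matrix (Fin 2) (Fin 2) ℂ) (hH : H.PosDef)
    (hspan : Submodule.span ℝ (Λ : Set (Fin 2 → ℂ)) = ⊤)
    (hint : ∀ u ∈ Λ, ∀ v ∈ Λ, ∃ k : ℤ, (star u ⬝ᵥ H.mulVec v).im = k) :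
    closure (Submodule.span ℚ {r : Matrix (Fin 2) (Fin 2) ℂ | ∃ D : Chain Λ, D.reg = r} :
      Set (Matrix (Fin 2) (Fin 2) ℂ)) = {Z | Z.IsHermitian} :=
  main_pol Λ H hH hspan hint

end Pool.Agent.Results.MP_b2b689_ag.AbelianSurfaces
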