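import Pool.Agent.H840.KP.All
set_option autoImplicit false

/-!
The real regulator on `K_1` of the powers `E ^ n` of every elliptic curve `E`: the classes from
surfaces have dense image in the space of the real classes of type `(2, 2)`.
-/

namespace Pool.Agent.Results.MP_b2b689_ag.PowersOfEllipticCurves

open Pool.Agent.H840.KP

theorem result (Λ : AddSubgroup ℂ) (hspan : Submodule.span ℝ (Λ : Set ℂ) = ⊤) (n : ℕ) :
    closure (Submodule.span ℚ {Z : Matrix (Fin n × Fin n) (Fin n × Fin n) ℂ |
      ∃ D : PChain (powE Λ n), D.reg = Z} :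
        Set (Matrix (Fin n × Fin n) (Fin n × Fin n) ℂ)) = H22 (Fin n) :=
  pow_main Λ hspan n

end Pool.Agent.Results.MP_b2b689_ag.PowersOfEllipticCurves
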