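import Pool.Agent.H840.KP.All
set_option autoImplicit false

/-!
The real regulator on `K_1` of the square `A × A` of every complex abelian surface `A` has dense
image in the component of type `(2, 2)` of `Sym ^ 2 H ^ 2 (A)`.
-/

namespace Pool.Agent.Results.MP_b2b689_ag.SquaresOfAbelianSurfaces

open Pool.Agent.H840.KP

open scoped Matrix ComplexOrder

theorem result (Λ : AddSubgroup (Fin 2 → ℂ)) (H : Matrix (Fin 2) (Fin 2) ℂ) (hH : H.PosDef)
    (hspan : Submodule.span ℝ (Λ : Set (Fin 2 → ℂ)) = ⊤)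
    (hint : ∀ u ∈ Λ, ∀ v ∈ Λ, ∃ k : ℤ, (star u ⬝ᵥ H.mulVec v).im = k) :
    closure (Submodule.span ℚ {Z : Ten | ∃ D : PChain (sqA Λ), cp D.reg = Z} : Set Ten) =
      cp '' H22 (Fin 2 × Fin 2) :=
  square_main Λ H hH hspan hint

end Pool.Agent.Results.MP_b2b689_ag.SquaresOfAbelianSurfaces
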