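import Pool.Agent.H840.KP.AllTwo
set_option autoImplicit false

/-!
The real regulator on `K_1` of the product `E_0 ^ 2 × E_1 ^ 2` for all pairs of elliptic curves: the
classes from products of two curves of genus two have dense image in the real classes of type
`(2, 2)`.
-/

namespace Pool.Agent.Results.MP_b2b689_ag.SquaresOfTwoEllipticCurves

open Pool.Agent.H840.KP

theorem result (Λ : Fin 2 → AddSubgroup ℂ)
    (hspan : ∀ i, Submodule.span ℝ (Λ i : Set ℂ) = ⊤) :
    closure (Submodule.span ℚ ({Z | ∃ D : PChain (sqA (prE Λ)), D.reg = Z} ∪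
      {Z | ∃ D : RChain (sqA (prE Λ)), D.reg = Z}) :
      Set (Matrix ((Fin 2 × Fin 2) × (Fin 2 × Fin 2)) ((Fin 2 × Fin 2) × (Fin 2 × Fin 2)) ℂ)) =
    H22 (Fin 2 × Fin 2) :=
  two_final Λ hspan

end Pool.Agent.Results.MP_b2b689_ag.SquaresOfTwoEllipticCurves
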